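import Pool.Agent.K1H14.SD.Stm3

/-!
# Project SD (helper14): invariance of the Casimir form
-/

set_option autoImplicit false

namespace Pool.Agent.K1H92.SD

open Pool.Agent.K1H14.KS Pool.Agent.K1H14.SD CliffordAlgebra QuadraticMap

universe u

section prod

variable {V : Type*} [AddCommGroup V] [Module ℂ V]

/-- product of two bilinear forms -/
noncomputable def prod4 (φ ψ : V →ₗ[ℂ] V →ₗ[ℂ] ℂ) : MultilinearMap ℂ (fun _ : Fin 4 => V) ℂ where
  toFun v := φ (v 0) (v 1) * ψ (v 2) (v 3)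
  map_update_add' := by
    intro inst m i x y
    obtain rfl : inst = instDecidableEqFin 4 := Subsingleton.elim _ _
    fin_cases i <;> simp <;> ring
  map_update_smul' := by
    intro inst m i c x
    obtain rfl : inst = instDecidableEqFin 4 := Subsingleton.elim _ _
    fin_cases i <;> simp <;> ring

lemma prod4_apply (φ ψ : V →ₗ[ℂ] V →ₗ[ℂ] ℂ) (v : Fin 4 → V) :
    prod4 φ ψ v = φ (v 0) (v 1) * ψ (v 2) (v 3) := rfl

end prod

section cas

variable {T : Type*} [AddCommGroup T] [Module ℂ T] {Q : QuadraticForm ℂ T} {d : ℕ}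
  {b : Module.Basis (Fin d) ℂ T}

lemma polar_b (hb : ONB Q b) (i j : Fin d) : polar Q (b i) (b j) = if i = j then 2 else 0 := by
  split_ifs with h
  · rw [h, hb.polar_self]
  · exact hb.orth i j h

lemma polar_left (hb : ONB Q b) (v : T) (k : Fin d) : polar Q (b k) v = 2 * b.repr v k := by
  have h1 : polar Q (b k) v = polarBilin Q (b k) (∑ l, b.repr v l • b l) := by
    rw [b.sum_repr v]
    rfl
  rw [h1, map_sum]
  simp only [map_smul, polarBilin_apply_apply, polar_b hb, smul_eq_mul, mul_ite, mul_zero,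
    Finset.sum_ite_eq, Finset.mem_univ, if_true]
  ring

lemma polar_both (hb : ONB Q b) (v w : T) :
    polar Q v w = 2 * ∑ k, b.repr v k * b.repr w k := by
  have h1 : polar Q v w = polarBilin Q (∑ l, b.repr v l • b l) w := by
    rw [b.sum_repr v]
    rfl
  rw [h1, map_sum, LinearMap.sum_apply, Finset.mul_sum]
  refine Finset.sum_congr rfl fun k _ => ?_
  rw [map_smul, LinearMap.smul_apply, polarBilin_apply_apply, polar_left hb, smul_eq_mul]
  ring

lemma app_eq (α : T →ₗ[ℂ] ℂ) (v : T) : α v = ∑ k, b.repr v k * α (b k) := by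
  conv_lhs => rw [← b.sum_repr v]
  rw [map_sum]
  simp only [map_smul, smul_eq_mul]

open Matrix in
lemma cas_iso (hb : ONB Q b) (s : T →ₗ[ℂ] T) (hs : ∀ u v, polar Q (s u) (s v) = polar Q u v)
    (α β : T →ₗ[ℂ] ℂ) : ∑ i, α (s (b i)) * β (s (b i)) = ∑ i, α (b i) * β (b i) := by
  set C : Matrix (Fin d) (Fin d) ℂ := Matrix.of fun k i => b.repr (s (b i)) k with hC
  have h1 : C.transpose * C = 1 := by
    ext i j
    rw [Matrix.mul_apply, Matrix.one_apply]
    have h2 := hs (b i) (b j)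
    rw [polar_both hb, polar_b hb] at h2
    have h3 : ∑ k, C.transpose i k * C k j = ∑ k, b.repr (s (b i)) k * b.repr (s (b j)) k := rfl
    rw [h3]
    split_ifs at h2 ⊢ <;> linear_combination h2 / 2
  have h3 : C * C.transpose = 1 := mul_eq_one_comm.1 h1
  have h4 : ∀ γ : T →ₗ[ℂ] ℂ, (fun i => γ (s (b i))) = (fun k => γ (b k)) ᵥ* C := by
    intro γ
    funext i
    rw [app_eq (b := b) γ (s (b i))]
    simp only [Matrix.vecMul, dotProduct, hC, Matrix.of_apply]
    exact Finset.sum_congr rfl fun k _ => mul_comm _ _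
  have h5 : ∑ i, α (s (b i)) * β (s (b i)) =
      (fun i => α (s (b i))) ⬝ᵥ (fun i => β (s (b i))) := rfl
  rw [h5, h4 α, h4 β, ← Matrix.dotProduct_mulVec, ← Matrix.mulVec_transpose, Matrix.mulVec_mulVec,
    h3, Matrix.one_mulVec]
  rfl

lemma cas_skew (hb : ONB Q b) (Y : T →ₗ[ℂ] T)
    (hY : ∀ u v, polar Q (Y u) v + polar Q u (Y v) = 0) (α β : T →ₗ[ℂ] ℂ) :
    ∑ i, (α (Y (b i)) * β (b i) + α (b i) * β (Y (b i))) = 0 := by
  have h1 : ∀ i k, b.repr (Y (b i)) k = - b.repr (Y (b k)) i := by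
    intro i k
    have h2 := hY (b k) (b i)
    rw [polar_comm Q (Y (b k)) (b i), polar_left hb, polar_left hb] at h2
    linear_combination h2 / 2
  have h2 : ∑ i, α (Y (b i)) * β (b i) = ∑ i, ∑ k, b.repr (Y (b i)) k * (α (b k) * β (b i)) := by
    refine Finset.sum_congr rfl fun i _ => ?_
    rw [app_eq (b := b) α (Y (b i)), Finset.sum_mul]
    exact Finset.sum_congr rfl fun k _ => by ring
  have h3 : ∑ i, α (b i) * β (Y (b i)) = ∑ i, ∑ k, b.repr (Y (b i)) k * (α (b i) * β (b k)) := by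
    refine Finset.sum_congr rfl fun i _ => ?_
    rw [app_eq (b := b) β (Y (b i)), Finset.mul_sum]
    exact Finset.sum_congr rfl fun k _ => by ring
  rw [Finset.sum_add_distrib, h2, h3, Finset.sum_comm (f := fun i k => b.repr (Y (b i)) k *
    (α (b i) * β (b k))), ← Finset.sum_add_distrib]
  refine Finset.sum_eq_zero fun i _ => ?_
  rw [← Finset.sum_add_distrib]
  refine Finset.sum_eq_zero fun k _ => ?_
  rw [h1 k i]
  ring

lemma cas2_iso (hb : ONB Q b) (s : T →ₗ[ℂ] T) (hs : ∀ u v, polar Q (s u) (s v) = polar Q u v)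
    (A B : T →ₗ[ℂ] T →ₗ[ℂ] ℂ) :
    ∑ i, ∑ j, A (s (b i)) (s (b j)) * B (s (b i)) (s (b j)) =
      ∑ i, ∑ j, A (b i) (b j) * B (b i) (b j) := by
  have h1 : ∀ i, ∑ j, A (s (b i)) (s (b j)) * B (s (b i)) (s (b j)) =
      ∑ j, A (s (b i)) (b j) * B (s (b i)) (b j) := fun i =>
    cas_iso hb s hs (A (s (b i))) (B (s (b i)))
  have h2 : ∀ j, ∑ i, A (s (b i)) (b j) * B (s (b i)) (b j) =
      ∑ i, A (b i) (b j) * B (b i) (b j) := fun j =>
    cas_iso hb s hs (A.flip (b j)) (B.flip (b j))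
  simp only [h1]
  rw [Finset.sum_comm]
  simp only [h2]
  rw [Finset.sum_comm]

lemma cas2_skew (hb : ONB Q b) (Y : T →ₗ[ℂ] T)
    (hY : ∀ u v, polar Q (Y u) v + polar Q u (Y v) = 0) (A B : T →ₗ[ℂ] T →ₗ[ℂ] ℂ) :
    ∑ i, ∑ j, ((A (Y (b i)) (b j) + A (b i) (Y (b j))) * B (b i) (b j) +
      A (b i) (b j) * (B (Y (b i)) (b j) + B (b i) (Y (b j)))) = 0 := by
  have h1 : ∀ i, ∑ j, (A (b i) (Y (b j)) * B (b i) (b j) + A (b i) (b j) * B (b i) (Y (b j)))
      = 0 := fun i => cas_skew hb Y hY (A (b i)) (B (b i))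
  have h2 : ∀ j, ∑ i, (A (Y (b i)) (b j) * B (b i) (b j) + A (b i) (b j) * B (Y (b i)) (b j))
      = 0 := fun j => cas_skew hb Y hY (A.flip (b j)) (B.flip (b j))
  have h3 : ∑ i, ∑ j, ((A (Y (b i)) (b j) + A (b i) (Y (b j))) * B (b i) (b j) +
      A (b i) (b j) * (B (Y (b i)) (b j) + B (b i) (Y (b j)))) =
      ∑ i, ∑ j, (A (Y (b i)) (b j) * B (b i) (b j) + A (b i) (b j) * B (Y (b i)) (b j)) +
      ∑ i, ∑ j, (A (b i) (Y (b j)) * B (b i) (b j) + A (b i) (b j) * B (b i) (Y (b j))) := by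
    rw [← Finset.sum_add_distrib]
    refine Finset.sum_congr rfl fun i _ => ?_
    rw [← Finset.sum_add_distrib]
    exact Finset.sum_congr rfl fun j _ => by ring
  rw [h3, Finset.sum_comm, Finset.sum_eq_zero fun j _ => h2 j, Finset.sum_eq_zero fun i _ => h1 i,
    add_zero]

end cas

section form

variable {T : Type u} [AddCommGroup T] [Module ℂ T] {Q : QuadraticForm ℂ T} {d : ℕ}

lemma pairW_coe (u v : T) : ((pairW Q u v : W Q) : CliffordAlgebra Q) = ι Q u * ι Q v := rfl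

lemma rv_coe (w : W Q) : ((rv Q w : W Q) : CliffordAlgebra Q) = reverse (w : CliffordAlgebra Q) :=
  rfl

/-- `(u, v) ↦ λ(w* u v w')` -/
noncomputable def ev (lam : W Q →ₗ[ℂ] ℂ) (w w' : W Q) : T →ₗ[ℂ] T →ₗ[ℂ] ℂ :=
  LinearMap.mk₂ ℂ (fun u v => lam (rv Q w * pairW Q u v * w'))
    (by
      intro u u' v
      rw [← map_add]
      congr 1
      rw [← add_mul, ← mul_add]
      congr 2
      apply Subtype.ext
      show ι Q (u + u') * ι Q v = ι Q u * ι Q v + ι Q u' * ι Q v
      rw [map_add, add_mul])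
    (by
      intro c u v
      rw [← map_smul]
      congr 1
      rw [← smul_mul_assoc, ← mul_smul_comm]
      congr 2
      apply Subtype.ext
      show ι Q (c • u) * ι Q v = c • (ι Q u * ι Q v)
      rw [map_smul, smul_mul_assoc])
    (by
      intro u v v'
      rw [← map_add]
      congr 1
      rw [← add_mul, ← mul_add]
      congr 2
      apply Subtype.ext
      show ι Q u * ι Q (v + v') = ι Q u * ι Q v + ι Q u * ι Q v'
      rw [map_add, mul_add])
    (by
      intro c u v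
      rw [← map_smul]
      congr 1
      rw [← smul_mul_assoc, ← mul_smul_comm]
      congr 2
      apply Subtype.ext
      show ι Q u * ι Q (c • v) = c • (ι Q u * ι Q v)
      rw [map_smul, mul_smul_comm])

lemma ev_apply (lam : W Q →ₗ[ℂ] ℂ) (w w' : W Q) (u v : T) :
    ev lam w w' u v = lam (rv Q w * pairW Q u v * w') := rfl

/-- `(w, w') ↦ λ(w* u v w')` -/
noncomputable def ph (lam : W Q →ₗ[ℂ] ℂ) (u v : T) : W Q →ₗ[ℂ] W Q →ₗ[ℂ] ℂ :=
  LinearMap.mk₂ ℂ (fun w w' => lam (rv Q w * pairW Q u v * w'))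
    (by intro w₁ w₂ w'; rw [map_add, add_mul, add_mul, map_add])
    (by intro c w w'; rw [map_smul, smul_mul_assoc, smul_mul_assoc, map_smul])
    (by intro w w₁ w₂; rw [mul_add, map_add])
    (by intro c w w'; rw [mul_smul_comm, map_smul])

/-- the form -/
noncomputable def FF (b : Module.Basis (Fin d) ℂ T) (l₁ l₂ : W Q →ₗ[ℂ] ℂ) : WForm Q 4 :=
  ∑ i, ∑ j, prod4 (ph l₁ (b i) (b j)) (ph l₂ (b i) (b j))

lemma FF_apply (b : Module.Basis (Fin d) ℂ T) (l₁ l₂ : W Q →ₗ[ℂ] ℂ) (v : Fin 4 → W Q) :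
    FF b l₁ l₂ v = ∑ i, ∑ j, ev l₁ (v 0) (v 1) (b i) (b j) * ev l₂ (v 2) (v 3) (b i) (b j) := by
  rw [FF, sum_apply]
  refine Finset.sum_congr rfl fun i _ => ?_
  rw [sum_apply]
  rfl

lemma ev_spin (lam : W Q →ₗ[ℂ] ℂ) {x : W Q} {t : T →ₗ[ℂ] T} (h : IsSpinPair x t) (w w' : W Q)
    (u v : T) : ev lam (x * w) (x * w') (t u) (t v) = ev lam w w' u v := by
  rw [ev_apply, ev_apply]
  congr 1
  apply Subtype.ext
  obtain ⟨hx, ht⟩ := h
  simp only [MulMemClass.coe_mul, rv_coe, pairW_coe, reverse.map_mul]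
  rw [← ht, ← ht]
  generalize reverse (w : CliffordAlgebra Q) = a
  generalize (w' : CliffordAlgebra Q) = c
  generalize ι Q u = s
  generalize ι Q v = s'
  generalize reverse (x : CliffordAlgebra Q) = xr at hx ⊢
  generalize (x : CliffordAlgebra Q) = y at hx ⊢
  calc a * xr * (y * s * xr * (y * s' * xr)) * (y * c)
      = a * (xr * y) * s * (xr * y) * s' * (xr * y) * c := by noncomm_ring
    _ = a * (s * s') * c := by rw [hx]; noncomm_ring

lemma ev_lie (lam : W Q →ₗ[ℂ] ℂ) {x : W Q} {Y : T →ₗ[ℂ] T} (h : IsLiePair x Y) (w w' : W Q)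
    (u v : T) : ev lam (x * w) w' u v + ev lam w (x * w') u v =
      -(ev lam w w' (Y u) v + ev lam w w' u (Y v)) := by
  simp only [ev_apply]
  rw [← map_add, ← map_add, ← map_neg]
  congr 1
  apply Subtype.ext
  obtain ⟨hx, hY⟩ := h
  have h1 : reverse (x : CliffordAlgebra Q) = - (x : CliffordAlgebra Q) :=
    eq_neg_of_add_eq_zero_left hx
  show ((rv Q (x * w) : W Q) : CliffordAlgebra Q) * (ι Q u * ι Q v) * (w' : CliffordAlgebra Q) +
    ((rv Q w : W Q) : CliffordAlgebra Q) * (ι Q u * ι Q v) *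
      ((x : CliffordAlgebra Q) * (w' : CliffordAlgebra Q)) =
    -(((rv Q w : W Q) : CliffordAlgebra Q) * (ι Q (Y u) * ι Q v) * (w' : CliffordAlgebra Q) +
      ((rv Q w : W Q) : CliffordAlgebra Q) * (ι Q u * ι Q (Y v)) * (w' : CliffordAlgebra Q))
  rw [rv_coe, rv_coe, MulMemClass.coe_mul, reverse.map_mul, h1, ← hY, ← hY]
  noncomm_ring

lemma iso_of_spin [Nontrivial (CliffordAlgebra Q)] {x : W Q} {t : T →ₗ[ℂ] T}
    (h : IsSpinPair x t) (u v : T) : polar Q (t u) (t v) = polar Q u v := by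
  have hQ : ∀ w, Q (t w) = Q w := by
    intro w
    apply (algebraMap ℂ (CliffordAlgebra Q)).injective
    obtain ⟨hx, ht⟩ := h
    have h1 : algebraMap ℂ (CliffordAlgebra Q) (Q (t w)) =
        reverse (x : CliffordAlgebra Q) * (algebraMap ℂ (CliffordAlgebra Q) (Q (t w))) *
          (x : CliffordAlgebra Q) := by
      rw [← Algebra.commutes, mul_assoc, hx, mul_one]
    rw [h1, ← ι_sq_scalar, ← ht]
    generalize reverse (x : CliffordAlgebra Q) = xr at hx ⊢
    generalize (x : CliffordAlgebra Q) = y at hx ⊢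
    calc xr * (y * ι Q w * xr * (y * ι Q w * xr)) * y
        = (xr * y) * ι Q w * (xr * y) * ι Q w * (xr * y) := by noncomm_ring
      _ = ι Q w * ι Q w := by rw [hx]; noncomm_ring
      _ = algebraMap ℂ (CliffordAlgebra Q) (Q w) := ι_sq_scalar Q w
  rw [polar, polar, ← map_add, hQ, hQ, hQ]

lemma skew_of_lie [Nontrivial (CliffordAlgebra Q)] {x : W Q} {Y : T →ₗ[ℂ] T}
    (h : IsLiePair x Y) (u v : T) : polar Q (Y u) v + polar Q u (Y v) = 0 := by
  apply (algebraMap ℂ (CliffordAlgebra Q)).injective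
  obtain ⟨hx, hY⟩ := h
  rw [map_add, map_zero, ← ι_mul_ι_add_swap, ← ι_mul_ι_add_swap, ← hY, ← hY]
  have h1 : ι Q u * ι Q v + ι Q v * ι Q u = algebraMap ℂ _ (polar Q u v) := ι_mul_ι_add_swap u v
  have h2 : (x : CliffordAlgebra Q) * (ι Q u * ι Q v + ι Q v * ι Q u) =
      (ι Q u * ι Q v + ι Q v * ι Q u) * (x : CliffordAlgebra Q) := by
    rw [h1, Algebra.commutes]
  have h3 : ((x : CliffordAlgebra Q) * ι Q u - ι Q u * (x : CliffordAlgebra Q)) * ι Q v +
      ι Q v * ((x : CliffordAlgebra Q) * ι Q u - ι Q u * (x : CliffordAlgebra Q)) +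
      (ι Q u * ((x : CliffordAlgebra Q) * ι Q v - ι Q v * (x : CliffordAlgebra Q)) +
      ((x : CliffordAlgebra Q) * ι Q v - ι Q v * (x : CliffordAlgebra Q)) * ι Q u) =
      (x : CliffordAlgebra Q) * (ι Q u * ι Q v + ι Q v * ι Q u) -
      (ι Q u * ι Q v + ι Q v * ι Q u) * (x : CliffordAlgebra Q) := by noncomm_ring
  rw [h3, h2, sub_self]

theorem FF_tate [Nontrivial (CliffordAlgebra Q)] (b : Module.Basis (Fin d) ℂ T) (hb : ONB Q b)
    (l₁ l₂ : W Q →ₗ[ℂ] ℂ) : IsTate (FF b l₁ l₂) := by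
  refine ⟨?_, ?_⟩
  · intro x t h v
    rw [FF_apply, FF_apply]
    simp only [LinearMap.mulLeft_apply]
    rw [← cas2_iso hb t (iso_of_spin h)]
    simp only [ev_spin _ h]
  · intro x Y h v
    rw [Fin.sum_univ_four]
    simp only [FF_apply]
    have e01 : (0 : Fin 4) ≠ 1 := by decide
    have e02 : (0 : Fin 4) ≠ 2 := by decide
    have e03 : (0 : Fin 4) ≠ 3 := by decide
    have e12 : (1 : Fin 4) ≠ 2 := by decide
    have e13 : (1 : Fin 4) ≠ 3 := by decide
    have e23 : (2 : Fin 4) ≠ 3 := by decide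
    simp only [Function.update_self, Function.update_of_ne e01, Function.update_of_ne e01.symm,
      Function.update_of_ne e02, Function.update_of_ne e02.symm, Function.update_of_ne e12,
      Function.update_of_ne e12.symm, Function.update_of_ne e03, Function.update_of_ne e03.symm,
      Function.update_of_ne e13, Function.update_of_ne e13.symm, Function.update_of_ne e23,
      Function.update_of_ne e23.symm, LinearMap.mulLeft_apply]
    have h1 := cas2_skew hb Y (skew_of_lie h) (ev l₁ (v 0) (v 1)) (ev l₂ (v 2) (v 3))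
    refine Eq.trans ?_ (neg_eq_zero.2 h1)
    rw [← Finset.sum_add_distrib, ← Finset.sum_add_distrib, ← Finset.sum_add_distrib,
      ← Finset.sum_neg_distrib]
    refine Finset.sum_congr rfl fun i _ => ?_
    rw [← Finset.sum_add_distrib, ← Finset.sum_add_distrib, ← Finset.sum_add_distrib,
      ← Finset.sum_neg_distrib]
    refine Finset.sum_congr rfl fun j _ => ?_
    have h2 := ev_lie l₁ h (v 0) (v 1) (b i) (b j)
    have h3 := ev_lie l₂ h (v 2) (v 3) (b i) (b j)
    linear_combination (ev l₂ (v 2) (v 3) (b i) (b j)) * h2 +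
      (ev l₁ (v 0) (v 1) (b i) (b j)) * h3

end form

end Pool.Agent.K1H92.SD
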