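import Pool.Agent.K1H92.SD.Cas
import Pool.Agent.K1H59.SD.TR
import Pool.Agent.K1H94.SD.Lnk1
import Pool.Agent.K1H96.SD.Lnk3
import Pool.Agent.K1H31.SD.Lnk2
import Pool.Agent.K1H83.SD.Pair

/-!
# Project SD (helper14): existence of an exceptional Tate class
-/

set_option autoImplicit false

namespace Pool.Agent.K1H92.SD

open Pool.Agent.K1H14.KS Pool.Agent.K1H14.SD CliffordAlgebra QuadraticMap
open scoped symmDiff

universe u

section abs

variable {A : Type u} [Ring A] [Algebra ℂ A] {d : ℕ} {M : Finset (Fin d) → A} {st : A →ₗ[ℂ] A}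
  {tr : A →ₗ[ℂ] ℂ}

lemma tr_pair (E : EvenCl M st) (hT : IsTr M tr) {L L' : Finset (Fin d)} (hL : Even L.card)
    (hL' : Even L'.card) : tr (M L * st (M L')) = if L = L' then 1 else 0 := by
  split_ifs with h
  · rw [← h, K1H83.SD.M_mul_st E L hL, ← E.one, hT.1 ∅ (by simp), if_pos rfl]
  · obtain ⟨ε, -, h2⟩ := E.mul L L' hL hL'
    rw [E.st_M L' hL', mul_smul_comm, h2, map_smul, map_smul,
      hT.1 _ (K1H94.SD.even_sd hL hL'), if_neg, smul_zero, smul_zero]
    intro h3
    apply h
    rwa [← Finset.bot_eq_empty, symmDiff_eq_bot] at h3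

end abs

section cl

variable {T : Type u} [AddCommGroup T] [Module ℂ T] {Q : QuadraticForm ℂ T} {d : ℕ}
  {b : Module.Basis (Fin d) ℂ T}

lemma pairW_MM (hb : ONB Q b) {i j : Fin d} (hij : i ≠ j) :
    ∃ ε : ℂ, (ε = 1 ∨ ε = -1) ∧ pairW Q (b i) (b j) = ε • MM (Q := Q) b {i, j} := by
  have hc : Even ({i, j} : Finset (Fin d)).card := by rw [Finset.card_pair hij]; decide
  have hp : ([i, j] : List (Fin d)).Perm (({i, j} : Finset (Fin d)).sort (· ≤ ·)) := by
    apply List.perm_of_nodup_nodup_toFinset_eq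
    · simp [hij]
    · exact Finset.sort_nodup _ _
    · rw [Finset.sort_toFinset]
      simp
  obtain ⟨ε, hε, h⟩ := K1H96.SD.mono_perm hb.anti hp
  refine ⟨ε, hε, ?_⟩
  apply Subtype.ext
  show ι Q (b i) * ι Q (b j) = ε • ((MM (Q := Q) b {i, j} : W Q) : CliffordAlgebra Q)
  rw [K1H31.SD.MM_coe b hc, ← h, mono_cons, mono_cons, mono_nil, mul_one]

lemma pairW_self (hb : ONB Q b) (i : Fin d) : pairW Q (b i) (b i) = 1 := by
  apply Subtype.ext
  show ι Q (b i) * ι Q (b i) = 1
  rw [ι_sq_scalar, hb.sq, map_one]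

end cl

lemma exists_K {d : ℕ} (hd : Odd d) (h7 : 7 ≤ d) : ∃ (K : Finset (Fin d)) (q : Fin d), q ∉ K ∧
    K.card % 4 = 2 ∧ 6 ≤ K.card ∧ (d % 4 = 3 → ∃ i, K = Finset.univ.erase i) := by
  by_cases h3 : d % 4 = 3
  · refine ⟨Finset.univ.erase ⟨0, by omega⟩, ⟨0, by omega⟩, Finset.notMem_erase _ _, ?_, ?_,
      fun _ => ⟨_, rfl⟩⟩ <;>
    · rw [Finset.card_erase_of_mem (Finset.mem_univ _), Finset.card_univ, Fintype.card_fin]
      omega
  · obtain ⟨K, -, hK⟩ := Finset.exists_subset_card_eq (s := (Finset.univ : Finset (Fin d)))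
      (n := 6) (by rw [Finset.card_univ, Fintype.card_fin]; omega)
    have hq : ∃ q, q ∉ K := by
      by_contra hcon
      push Not at hcon
      have h1 : K = Finset.univ := Finset.eq_univ_iff_forall.2 hcon
      rw [h1, Finset.card_univ, Fintype.card_fin] at hK
      rcases hd with ⟨k, hk⟩
      omega
    obtain ⟨q, hq⟩ := hq
    exact ⟨K, q, hq, by omega, by omega, fun h => absurd h h3⟩

theorem t_CONV : S_CONV.{u} := by
  intro T _ _ Q hQ hodd h7
  have hfd : FiniteDimensional ℂ T := Module.finite_of_finrank_pos (by omega)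
  obtain ⟨b, hb⟩ := exists_onb hQ
  have E := K1H94.SD.t_LNK1 Q _ b hodd hb
  obtain ⟨-, tr, hT⟩ := K1H59.SD.t_TR (MM (Q := Q) b) (rv Q) E
  obtain ⟨K, q, hqK, hK4, hK6, hK3⟩ := exists_K hodd h7
  obtain ⟨p, hpK⟩ : K.Nonempty := Finset.card_pos.1 (by omega)
  have hpq : p ≠ q := fun h => hqK (h ▸ hpK)
  set K0 : Finset (Fin (Module.finrank ℂ T)) := {p, q} with hK0
  set K1 : Finset (Fin (Module.finrank ℂ T)) := K0 ∆ K with hK1
  have hKe : Even K.card := ⟨K.card / 2, by omega⟩
  have hK0c : K0.card = 2 := Finset.card_pair hpq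
  have hK0e : Even K0.card := by rw [hK0c]; decide
  have hK1e : Even K1.card := K1H94.SD.even_sd hK0e hKe
  have hint : K0 ∩ K = {p} := by
    ext x
    simp only [hK0, Finset.mem_inter, Finset.mem_insert, Finset.mem_singleton]
    constructor
    · rintro ⟨h | h, h'⟩
      · exact h
      · exact absurd (h ▸ h') hqK
    · rintro rfl
      exact ⟨Or.inl rfl, hpK⟩
  have hK1' : K1 = insert q (K.erase p) := by
    ext x
    simp only [hK1, hK0, Finset.mem_symmDiff, Finset.mem_insert, Finset.mem_singleton,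
      Finset.mem_erase]
    constructor
    · rintro (⟨h | h, h'⟩ | ⟨h, h'⟩)
      · exact absurd (h ▸ hpK) h'
      · exact Or.inl h
      · push Not at h'
        exact Or.inr ⟨h'.1, h⟩
    · rintro (h | ⟨h, h'⟩)
      · exact Or.inl ⟨Or.inr h, fun h' => hqK (h ▸ h')⟩
      · refine Or.inr ⟨h', ?_⟩
        rintro (h1 | h1)
        · exact h h1
        · exact hqK (h1 ▸ h')
  have hK1c : K1.card = K.card := by
    rw [hK1', Finset.card_insert_of_notMem, Finset.card_erase_of_mem hpK]
    · omega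
    · intro h
      exact hqK (Finset.mem_of_mem_erase h)
  set M := MM (Q := Q) b with hM
  set x : W Q := M K with hx
  set l₁ : W Q →ₗ[ℂ] ℂ := tr ∘ₗ LinearMap.mulRight ℂ (rv Q (M K1)) with hl₁
  set l₂ : W Q →ₗ[ℂ] ℂ := tr ∘ₗ LinearMap.mulRight ℂ (rv Q (M K0)) with hl₂
  have hl₁a : ∀ y, l₁ y = tr (y * rv Q (M K1)) := fun y => rfl
  have hl₂a : ∀ y, l₂ y = tr (y * rv Q (M K0)) := fun y => rfl
  have hstx : rv Q x = -x := by
    rw [hx, E.st_M K hKe]
    have : Odd (K.card / 2) := by
      rw [Nat.odd_iff]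
      omega
    rw [this.neg_one_pow, neg_smul, one_smul]
  have hrv1 : rv Q (1 : W Q) = 1 := by
    apply Subtype.ext
    show reverse (1 : CliffordAlgebra Q) = 1
    exact reverse.map_one
  refine ⟨FF b l₁ l₂, x, FF_tate b hb l₁ l₂, ⟨congrArg Subtype.val hstx, ?_⟩, ?_⟩
  · intro h3
    obtain ⟨i, hi⟩ := hK3 h3
    obtain ⟨ε, -, h1⟩ := K1H96.SD.MM_compl (Q := Q) (b := b) hodd hb i
    refine ⟨b i, ε • K1H96.SD.om Q b, ?_, ?_⟩
    · intro t
      rw [smul_mul_assoc, mul_smul_comm, K1H96.SD.om_comm hodd hb]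
    · rw [hx, hi, hM, h1, mul_smul_comm]
  · intro hk
    have h1 := hk (fun _ => 1)
    rw [Fin.sum_univ_four] at h1
    simp only [FF_apply] at h1
    have e01 : (0 : Fin 4) ≠ 1 := by decide
    have e02 : (0 : Fin 4) ≠ 2 := by decide
    have e03 : (0 : Fin 4) ≠ 3 := by decide
    have e12 : (1 : Fin 4) ≠ 2 := by decide
    have e13 : (1 : Fin 4) ≠ 3 := by decide
    have e23 : (2 : Fin 4) ≠ 3 := by decide
    simp only [Function.update_self, Function.update_of_ne e01, Function.update_of_ne e01.symm,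
      Function.update_of_ne e02, Function.update_of_ne e02.symm, Function.update_of_ne e12,
      Function.update_of_ne e12.symm, Function.update_of_ne e03, Function.update_of_ne e03.symm,
      Function.update_of_ne e13, Function.update_of_ne e13.symm, Function.update_of_ne e23,
      Function.update_of_ne e23.symm, LinearMap.mulLeft_apply, mul_one, ev_apply, hstx,
      hrv1, one_mul] at h1
    rw [← Finset.sum_add_distrib, ← Finset.sum_add_distrib, ← Finset.sum_add_distrib] at h1
    have hterm : ∀ i j, l₁ (-x * pairW Q (b i) (b j)) * l₂ (pairW Q (b i) (b j)) +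
        l₁ (pairW Q (b i) (b j) * x) * l₂ (pairW Q (b i) (b j)) +
        l₁ (pairW Q (b i) (b j)) * l₂ (-x * pairW Q (b i) (b j)) +
        l₁ (pairW Q (b i) (b j)) * l₂ (pairW Q (b i) (b j) * x) =
        if i ≠ j ∧ ({i, j} : Finset (Fin (Module.finrank ℂ T))) = K0
          then l₁ (M K0 * x - x * M K0) else 0 := by
      intro i j
      by_cases hij : i = j
      · rw [if_neg (by simp [hij]), hij, pairW_self hb, mul_one, one_mul, map_neg, map_neg]
        ring
      · obtain ⟨ε, hε, hP⟩ := pairW_MM hb hij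
        have hijc : ({i, j} : Finset (Fin (Module.finrank ℂ T))).card = 2 := Finset.card_pair hij
        have hije : Even ({i, j} : Finset (Fin (Module.finrank ℂ T))).card := by
          rw [hijc]; decide
        have h2 : l₁ (pairW Q (b i) (b j)) = 0 := by
          rw [hP, map_smul, hl₁a, tr_pair E hT hije hK1e, if_neg, smul_zero]
          intro h3
          rw [← h3, hijc] at hK1c
          omega
        have h3 : l₂ (pairW Q (b i) (b j)) =
            ε * if ({i, j} : Finset (Fin (Module.finrank ℂ T))) = K0 then 1 else 0 := by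
          rw [hP, map_smul, hl₂a, tr_pair E hT hije hK0e, smul_eq_mul]
        rw [h2, h3, zero_mul, zero_mul, add_zero, add_zero]
        by_cases h4 : ({i, j} : Finset (Fin (Module.finrank ℂ T))) = K0
        · rw [if_pos h4, if_pos ⟨hij, h4⟩, hP, h4, map_sub]
          have h5 : l₁ (-x * ε • M K0) = -(ε * l₁ (x * M K0)) := by
            rw [mul_smul_comm, map_smul, neg_mul, map_neg, smul_eq_mul]
            ring
          have h6 : l₁ ((ε • M K0) * x) = ε * l₁ (M K0 * x) := by
            rw [smul_mul_assoc, map_smul, smul_eq_mul]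
          rw [h5, h6]
          rcases hε with rfl | rfl <;> ring
        · rw [if_neg h4, if_neg (fun h => h4 h.2)]
          ring
    have h2 : ∑ i, ∑ j, (if i ≠ j ∧ ({i, j} : Finset (Fin (Module.finrank ℂ T))) = K0
          then l₁ (M K0 * x - x * M K0) else 0) = 0 := by
      refine Eq.trans ?_ h1
      refine Finset.sum_congr rfl fun i _ => ?_
      rw [← Finset.sum_add_distrib, ← Finset.sum_add_distrib, ← Finset.sum_add_distrib]
      refine Finset.sum_congr rfl fun j _ => ?_
      rw [← hterm i j]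
    rw [← Finset.sum_product', ← Finset.sum_filter, Finset.sum_const, nsmul_eq_mul,
      mul_eq_zero] at h2
    rcases h2 with h2 | h2
    · rw [Nat.cast_eq_zero, Finset.card_eq_zero] at h2
      have h3 : (p, q) ∈ (Finset.univ ×ˢ Finset.univ : Finset (Fin (Module.finrank ℂ T) ×
          Fin (Module.finrank ℂ T))).filter fun z =>
          z.1 ≠ z.2 ∧ ({z.1, z.2} : Finset (Fin (Module.finrank ℂ T))) = K0 := by
        rw [Finset.mem_filter]
        exact ⟨by simp, hpq, rfl⟩
      rw [h2] at h3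
      exact absurd h3 (Finset.notMem_empty _)
    · have h3 := E.comm K0 K hK0e hKe
      rw [hint, Finset.card_singleton, pow_one, neg_smul, one_smul] at h3
      obtain ⟨ε, hε, h4⟩ := E.mul K0 K hK0e hKe
      have h5 : M K0 * x - x * M K0 = (2 * ε) • M K1 := by
        have h6 : x * M K0 = - (M K0 * x) := by
          rw [hx, h3, neg_neg]
        rw [h6, sub_neg_eq_add, ← two_smul ℂ, hx, h4, smul_smul]
      rw [h5, map_smul, hl₁a, tr_pair E hT hK1e hK1e, if_pos rfl, smul_eq_mul, mul_one] at h2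
      rcases hε with rfl | rfl <;> norm_num at h2

end Pool.Agent.K1H92.SD
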